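import Pool.Agent.Helper63.GW.StA

/-!
# Project GW: module GME (mean value of products of block polynomials with a Gaussian window)
-/

set_option autoImplicit false

namespace Pool.Agent.Helper70.GW

open Finset ArithmeticFunction MeasureTheory Filter Topology
open Pool.Agent.Helper63.GW

/-- `(k+1) e^{-k²} ≤ (3/4)^k` -/
theorem exp_shell (k : ℕ) : ((k : ℝ) + 1) * Real.exp (-(k : ℝ) ^ 2) ≤ (3 / 4 : ℝ) ^ k := by
  have h1 : (k : ℝ) + 1 ≤ 2 ^ k := by
    have h := Nat.lt_two_pow_self (n := k)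
    have h' : k + 1 ≤ 2 ^ k := h
    exact_mod_cast h'
  have h2 : Real.exp (-(k : ℝ) ^ 2) ≤ Real.exp (-1) ^ k := by
    rw [← Real.exp_nat_mul]
    apply Real.exp_le_exp.2
    have h3 : (k : ℝ) ≤ (k : ℝ) ^ 2 := by
      have h4 : k ≤ k ^ 2 := Nat.le_self_pow (by norm_num) k
      exact_mod_cast h4
    linarith
  have h5 : (2 : ℝ) * Real.exp (-1) ≤ 3 / 4 := by
    have h6 := Real.exp_one_gt_d9
    rw [Real.exp_neg]
    rw [← div_eq_mul_inv, div_le_iff₀ (Real.exp_pos 1)]
    linarith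
  calc ((k : ℝ) + 1) * Real.exp (-(k : ℝ) ^ 2) ≤ 2 ^ k * Real.exp (-1) ^ k :=
        mul_le_mul h1 h2 (Real.exp_pos _).le (by positivity)
    _ = (2 * Real.exp (-1)) ^ k := by rw [mul_pow]
    _ ≤ (3 / 4) ^ k := pow_le_pow_left₀ (by positivity) h5 k

/-- from windows `|t - c| ≤ T` to the Gaussian window -/
theorem gauss_window (F : ℝ → ℝ) (hFc : Continuous F) (hF0 : ∀ t, 0 ≤ F t) (c W B : ℝ)
    (hW : 1 ≤ W) (hB0 : 0 ≤ B)
    (h : ∀ n : ℕ, ∫ t in (c - (n + 1) * W)..(c + (n + 1) * W), F t ≤ (n + 1) * B) :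
    ∫ t : ℝ, F t * Real.exp (-((t - c) / W) ^ 2) ≤ 4 * B := by
  have hW0 : 0 < W := by linarith
  by_cases hint : Integrable (fun t : ℝ => F t * Real.exp (-((t - c) / W) ^ 2))
  swap
  · rw [integral_undef hint]
    positivity
  have hec : Continuous (fun t : ℝ => Real.exp (-((t - c) / W) ^ 2)) := by fun_prop
  have hfc : Continuous (fun t : ℝ => F t * Real.exp (-((t - c) / W) ^ 2)) := hFc.mul hec
  have hf0 : ∀ t, 0 ≤ F t * Real.exp (-((t - c) / W) ^ 2) :=
    fun t => mul_nonneg (hF0 t) (Real.exp_pos _).le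
  have key : ∀ n : ℕ, ∫ t in (c - n * W)..(c + n * W), F t * Real.exp (-((t - c) / W) ^ 2) ≤
      ∑ k ∈ range n, (3 / 4 : ℝ) ^ k * B := by
    intro n
    induction n with
    | zero => simp
    | succ n ih =>
      rw [Finset.sum_range_succ]
      push_cast
      have hi : ∀ a b : ℝ, IntervalIntegrable
          (fun t : ℝ => F t * Real.exp (-((t - c) / W) ^ 2)) volume a b :=
        fun a b => hfc.intervalIntegrable a b
      have hiF : ∀ a b : ℝ, IntervalIntegrable F volume a b :=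
        fun a b => hFc.intervalIntegrable a b
      have e1 := intervalIntegral.integral_add_adjacent_intervals
        (hi (c - (n + 1) * W) (c - n * W)) (hi (c - n * W) (c + n * W))
      have e2 := intervalIntegral.integral_add_adjacent_intervals
        (hi (c - (n + 1) * W) (c + n * W)) (hi (c + n * W) (c + (n + 1) * W))
      have e3 := intervalIntegral.integral_add_adjacent_intervals
        (hiF (c - (n + 1) * W) (c - n * W)) (hiF (c - n * W) (c + n * W))
      have e4 := intervalIntegral.integral_add_adjacent_intervals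
        (hiF (c - (n + 1) * W) (c + n * W)) (hiF (c + n * W) (c + (n + 1) * W))
      have hn0 : (0 : ℝ) ≤ n := Nat.cast_nonneg n
      have b1 : ∫ t in (c - (n + 1) * W)..(c - n * W), F t * Real.exp (-((t - c) / W) ^ 2) ≤
          ∫ t in (c - (n + 1) * W)..(c - n * W), F t * Real.exp (-(n : ℝ) ^ 2) := by
        apply intervalIntegral.integral_mono_on (by nlinarith) (hi _ _)
          ((hFc.mul continuous_const).intervalIntegrable _ _)
        intro t ht
        apply mul_le_mul_of_nonneg_left _ (hF0 t)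
        apply Real.exp_le_exp.2
        have h1 : (n : ℝ) ≤ (c - t) / W := by
          rw [le_div_iff₀ hW0]
          linarith [ht.2]
        have h2 : ((t - c) / W) ^ 2 = ((c - t) / W) ^ 2 := by
          rw [div_pow, div_pow]
          ring
        rw [h2]
        have := pow_le_pow_left₀ hn0 h1 2
        linarith
      have b2 : ∫ t in (c + n * W)..(c + (n + 1) * W), F t * Real.exp (-((t - c) / W) ^ 2) ≤
          ∫ t in (c + n * W)..(c + (n + 1) * W), F t * Real.exp (-(n : ℝ) ^ 2) := by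
        apply intervalIntegral.integral_mono_on (by nlinarith) (hi _ _)
          ((hFc.mul continuous_const).intervalIntegrable _ _)
        intro t ht
        apply mul_le_mul_of_nonneg_left _ (hF0 t)
        apply Real.exp_le_exp.2
        have h1 : (n : ℝ) ≤ (t - c) / W := by
          rw [le_div_iff₀ hW0]
          linarith [ht.1]
        have := pow_le_pow_left₀ hn0 h1 2
        linarith
      rw [intervalIntegral.integral_mul_const] at b1 b2
      have h0 : 0 ≤ ∫ t in (c - n * W)..(c + n * W), F t :=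
        intervalIntegral.integral_nonneg (by nlinarith) (fun t _ => hF0 t)
      have h3 := h n
      have h4 := exp_shell n
      have hE := Real.exp_pos (-(n : ℝ) ^ 2)
      have h5 : (∫ t in (c - (n + 1) * W)..(c - n * W), F t) * Real.exp (-(n : ℝ) ^ 2) +
          (∫ t in (c + n * W)..(c + (n + 1) * W), F t) * Real.exp (-(n : ℝ) ^ 2) ≤
          (3 / 4) ^ n * B := by
        rw [← add_mul]
        calc ((∫ t in (c - (n + 1) * W)..(c - n * W), F t) +
              ∫ t in (c + n * W)..(c + (n + 1) * W), F t) * Real.exp (-(n : ℝ) ^ 2)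
            ≤ ((n + 1) * B) * Real.exp (-(n : ℝ) ^ 2) :=
              mul_le_mul_of_nonneg_right (by linarith) hE.le
          _ = ((n + 1) * Real.exp (-(n : ℝ) ^ 2)) * B := by ring
          _ ≤ (3 / 4) ^ n * B := mul_le_mul_of_nonneg_right h4 hB0
      linarith
  have hsum : ∀ n : ℕ, ∑ k ∈ range n, (3 / 4 : ℝ) ^ k * B ≤ 4 * B := by
    intro n
    rw [← Finset.sum_mul]
    apply mul_le_mul_of_nonneg_right _ hB0
    rw [geom_sum_eq (by norm_num)]
    have : (0 : ℝ) ≤ (3 / 4) ^ n := by positivity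
    rw [div_le_iff_of_neg (by norm_num)]
    linarith
  have hl : Tendsto (fun n : ℕ => ∫ t in (c - n * W)..(c + n * W),
      F t * Real.exp (-((t - c) / W) ^ 2)) atTop
      (𝓝 (∫ t : ℝ, F t * Real.exp (-((t - c) / W) ^ 2))) := by
    apply intervalIntegral_tendsto_integral hint
    · have h1 : Tendsto (fun n : ℕ => -((n : ℝ) * W)) atTop atBot :=
        tendsto_neg_atTop_atBot.comp (tendsto_natCast_atTop_atTop.atTop_mul_const hW0)
      have h2 := tendsto_atBot_add_const_left atTop c h1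
      refine h2.congr (fun n => by ring)
    · apply tendsto_atTop_add_const_left
      exact tendsto_natCast_atTop_atTop.atTop_mul_const hW0
  exact le_of_tendsto' hl (fun n => (key n).trans (hsum n))

/-- module GME -/
theorem hGME : StMea8 → StBkb → StGme := by
  rintro ⟨C, hC⟩ ⟨-, -, hcont, -⟩
  refine ⟨4 * C, fun q χ e S c W hW => ?_⟩
  have hs0 : (0 : ℝ) ≤ ∑ i ∈ S, (e i : ℝ) := Finset.sum_nonneg (fun i _ => Nat.cast_nonneg _)
  have hmain := gauss_window (fun t => ∏ i ∈ S, ‖bk χ i (e i) t‖ ^ 2)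
    (continuous_finsetProd _ (fun i _ => (hcont q χ i (e i)).norm.pow 2))
    (fun t => Finset.prod_nonneg (fun i _ => by positivity)) c W
    (C * (W / 2 ^ (∑ i ∈ S, e i) + 1) * (1 + ∑ i ∈ S, (e i : ℝ)) ^ C) hW (by positivity) (by
      intro n
      have hn : (1 : ℝ) ≤ (n : ℝ) + 1 := by linarith [Nat.cast_nonneg (α := ℝ) n]
      refine (hC q χ e S c ((n + 1) * W) (by nlinarith)).trans ?_
      have h1 : ((n : ℝ) + 1) * W / 2 ^ (∑ i ∈ S, e i) + 1 ≤
          ((n : ℝ) + 1) * (W / 2 ^ (∑ i ∈ S, e i) + 1) := by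
        rw [mul_add, mul_div_assoc]
        linarith
      calc (C : ℝ) * (((n : ℝ) + 1) * W / 2 ^ (∑ i ∈ S, e i) + 1) *
            (1 + ∑ i ∈ S, (e i : ℝ)) ^ C
          ≤ C * (((n : ℝ) + 1) * (W / 2 ^ (∑ i ∈ S, e i) + 1)) *
            (1 + ∑ i ∈ S, (e i : ℝ)) ^ C := by gcongr
        _ = _ := by ring)
  refine hmain.trans ?_
  push_cast
  have h2 : (1 + ∑ i ∈ S, (e i : ℝ)) ^ C ≤ (1 + ∑ i ∈ S, (e i : ℝ)) ^ (4 * C) :=
    pow_le_pow_right₀ (by linarith) (by omega)
  calc 4 * ((C : ℝ) * (W / 2 ^ (∑ i ∈ S, e i) + 1) * (1 + ∑ i ∈ S, (e i : ℝ)) ^ C)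
      = 4 * (C : ℝ) * (W / 2 ^ (∑ i ∈ S, e i) + 1) * (1 + ∑ i ∈ S, (e i : ℝ)) ^ C := by ring
    _ ≤ 4 * (C : ℝ) * (W / 2 ^ (∑ i ∈ S, e i) + 1) * (1 + ∑ i ∈ S, (e i : ℝ)) ^ (4 * C) := by
        gcongr

end Pool.Agent.Helper70.GW
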