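import Pool.Agent.Helper63.GW.StB

/-!
# Project GW: module WPL (Plancherel inequality on a window)

The section `Plancherel` is a copy of the one of `Helper87/MV/M_GWF.lean` (where it is private).
-/

set_option autoImplicit false

namespace Pool.Agent.Helper70.GW

open Finset MeasureTheory
open Pool.Agent.Helper2.MR (ch)
open Pool.Agent.Helper63.GW

section Plancherel

open FourierTransform

theorem wpl_cont {f : ℝ → ℂ} (hf : Integrable f) : Continuous (𝓕 f) :=
  VectorFourier.fourierIntegral_continuous Real.continuous_fourierChar continuous_inner hf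

theorem wpl_toLp {f : ℝ → ℂ} (h1 : Integrable f) (h2 : MemLp f 2) :
    ∀ᵐ x : ℝ, (𝓕 (h2.toLp f) : Lp ℂ 2 (volume : Measure ℝ)) x = 𝓕 f x := by
  set F : Lp ℂ 2 (volume : Measure ℝ) := h2.toLp f with hF
  apply ae_eq_of_integral_contDiff_smul_eq
  · exact ((Lp.memLp (𝓕 F)).locallyIntegrable (by norm_num))
  · exact (wpl_cont h1).locallyIntegrable
  · intro g hg hgs
    have hgs' : HasCompactSupport (fun x => (g x : ℂ)) :=
      hgs.comp_left (g := fun r : ℝ => (r : ℂ)) (by simp)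
    have hg' : ContDiff ℝ ((⊤ : ℕ∞) : WithTop ℕ∞) (fun x => (g x : ℂ)) :=
      Complex.ofRealCLM.contDiff.comp hg
    set G : SchwartzMap ℝ ℂ := hgs'.toSchwartzMap hg' with hG
    have hGg : ∀ x, G x = (g x : ℂ) := fun x => rfl
    have h3 : (𝓕 (F : TemperedDistribution ℝ ℂ)) G = ((𝓕 F : Lp ℂ 2 (volume : Measure ℝ)) :
        TemperedDistribution ℝ ℂ) G := by
      rw [MeasureTheory.Lp.fourier_toTemperedDistribution_eq]
    rw [TemperedDistribution.fourier_apply, Lp.toTemperedDistribution_apply,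
      Lp.toTemperedDistribution_apply] at h3
    have h4 : ∫ x, g x • (𝓕 F : Lp ℂ 2 (volume : Measure ℝ)) x =
        ∫ x, G x • (𝓕 F : Lp ℂ 2 (volume : Measure ℝ)) x := by
      apply integral_congr_ae (ae_of_all _ fun x => ?_)
      simp [hGg]
    have h5 : ∫ x, (𝓕 G) x • F x = ∫ x, (𝓕 (G : ℝ → ℂ)) x • f x := by
      apply integral_congr_ae
      filter_upwards [h2.coeFn_toLp] with x hx
      rw [hF, hx, SchwartzMap.fourier_coe]
    have h6 : ∫ x, (𝓕 (G : ℝ → ℂ)) x • f x = ∫ x, G x • 𝓕 f x := by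
      have := VectorFourier.integral_fourierIntegral_smul_eq_flip (L := innerₗ ℝ) (μ := volume)
        (ν := volume) Real.continuous_fourierChar continuous_inner G.integrable h1
      simpa using! this
    have h7 : ∫ x, G x • 𝓕 f x = ∫ x, g x • 𝓕 f x := by
      apply integral_congr_ae (ae_of_all _ fun x => ?_)
      simp [hGg]
    rw [h4, ← h3, h5, h6, h7]

theorem wpl_planch {f : ℝ → ℂ} (hf1 : Integrable f) (hf2 : MemLp f 2) :
    MemLp (𝓕 f) 2 ∧ ∫ ξ, ‖𝓕 f ξ‖ ^ 2 = ∫ z, ‖f z‖ ^ 2 := by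
  set F : Lp ℂ 2 (volume : Measure ℝ) := hf2.toLp f with hF
  have h1 : ‖𝓕 F‖ = ‖F‖ := Lp.norm_fourier_eq F
  have hm : MemLp (𝓕 f) 2 := (memLp_congr_ae (wpl_toLp hf1 hf2)).1 (Lp.memLp (𝓕 F))
  refine ⟨hm, ?_⟩
  have h2 : ‖𝓕 F‖ₑ = ‖F‖ₑ := by rw [← ofReal_norm, ← ofReal_norm, h1]
  rw [Lp.enorm_def, Lp.enorm_def] at h2
  have h3 : eLpNorm (𝓕 F : Lp ℂ 2 (volume : Measure ℝ)) 2 volume = eLpNorm (𝓕 f) 2 volume :=
    eLpNorm_congr_ae (wpl_toLp hf1 hf2)
  have h4 : eLpNorm F 2 volume = eLpNorm f 2 volume :=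
    eLpNorm_congr_ae hf2.coeFn_toLp
  rw [h3, h4] at h2
  have key : ∀ g : ℝ → ℂ, MemLp g 2 → ∫ z, ‖g z‖ ^ 2 = ((eLpNorm g 2 volume) ^ 2).toReal := by
    intro g hg
    rw [eLpNorm_eq_lintegral_rpow_enorm_toReal (by norm_num) (by norm_num), ← ENNReal.rpow_natCast,
      ← ENNReal.rpow_mul]
    have hms : AEStronglyMeasurable (fun z => ‖g z‖ ^ 2) volume := hg.1.norm.pow 2
    rw [integral_eq_lintegral_of_nonneg_ae (f := fun z => ‖g z‖ ^ 2)
      (ae_of_all _ fun x => sq_nonneg _) hms]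
    congr 1
    norm_num
  rw [key _ hm, key _ hf2, h2]

/-- the scaled version -/
theorem wpl_scaled {f : ℝ → ℂ} (hf1 : Integrable f) (hf2 : MemLp f 2) :
    Continuous (fun u : ℝ => ((√(2 * Real.pi))⁻¹ : ℂ) * ∫ t, Complex.exp (((t * u : ℝ) : ℂ) *
      Complex.I) * f t) ∧
    Integrable (fun u : ℝ => ‖((√(2 * Real.pi))⁻¹ : ℂ) * ∫ t, Complex.exp (((t * u : ℝ) : ℂ) *
      Complex.I) * f t‖ ^ 2) ∧
    ∫ u : ℝ, ‖((√(2 * Real.pi))⁻¹ : ℂ) * ∫ t, Complex.exp (((t * u : ℝ) : ℂ) *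
      Complex.I) * f t‖ ^ 2 = ∫ t, ‖f t‖ ^ 2 := by
  have hpi : 0 < 2 * Real.pi := by positivity
  have e : ∀ u : ℝ, ∫ t, Complex.exp (((t * u : ℝ) : ℂ) * Complex.I) * f t =
      𝓕 f (u * (-(2 * Real.pi)⁻¹)) := by
    intro u
    rw [Real.fourier_eq]
    apply integral_congr_ae (ae_of_all _ fun t => ?_)
    rw [Circle.smul_def, Real.fourierChar_apply, smul_eq_mul]
    congr 2
    have : (inner ℝ t (u * (-(2 * Real.pi)⁻¹)) : ℝ) = (u * (-(2 * Real.pi)⁻¹)) * t := rfl
    rw [this]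
    have h2 : 2 * Real.pi * -(u * (-(2 * Real.pi)⁻¹) * t) = t * u := by
      field_simp
    rw [h2]
  simp_rw [e]
  obtain ⟨hm, hpl⟩ := wpl_planch hf1 hf2
  have hc := wpl_cont hf1
  have hi : Integrable (fun ξ => ‖𝓕 f ξ‖ ^ 2) := (memLp_two_iff_integrable_sq_norm hm.1).1 hm
  have hne : (-(2 * Real.pi)⁻¹) ≠ 0 := by
    rw [neg_ne_zero]
    positivity
  have hnn : ∀ u : ℝ, ‖((√(2 * Real.pi))⁻¹ : ℂ) * 𝓕 f (u * (-(2 * Real.pi)⁻¹))‖ ^ 2 =
      (2 * Real.pi)⁻¹ * (fun ξ => ‖𝓕 f ξ‖ ^ 2) (u * (-(2 * Real.pi)⁻¹)) := by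
    intro u
    rw [norm_mul, mul_pow, norm_inv, Complex.norm_real, Real.norm_of_nonneg (Real.sqrt_nonneg _),
      inv_pow, Real.sq_sqrt hpi.le]
  refine ⟨?_, ?_, ?_⟩
  · exact continuous_const.mul (hc.comp (continuous_id.mul continuous_const))
  · simp_rw [hnn]
    exact (hi.comp_mul_right' hne).const_mul _
  · simp_rw [hnn]
    rw [integral_const_mul, Measure.integral_comp_mul_right (fun ξ => ‖𝓕 f ξ‖ ^ 2), ← hpl,
      smul_eq_mul, ← mul_assoc]
    rw [inv_neg, inv_inv, abs_neg, abs_of_pos hpi, inv_mul_cancel₀ hpi.ne', one_mul]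

end Plancherel

/-- the Gaussian integral -/
theorem wpl_gauss (a : ℝ) (ha : 0 < a) (x : ℝ) :
    ∫ t : ℝ, Complex.exp (((t * x : ℝ) : ℂ) * Complex.I) * ((Real.exp (-(a * t ^ 2)) : ℝ) : ℂ) =
      ((√(Real.pi / a) * Real.exp (-(x ^ 2 / (4 * a))) : ℝ) : ℂ) := by
  have h := fourierIntegral_gaussian (b := (a : ℂ)) (by rw [Complex.ofReal_re]; exact ha) (x : ℂ)
  have h1 : ∀ t : ℝ, Complex.exp (((t * x : ℝ) : ℂ) * Complex.I) *
      ((Real.exp (-(a * t ^ 2)) : ℝ) : ℂ) =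
      Complex.exp (Complex.I * x * t) * Complex.exp (-a * t ^ 2) := by
    intro t
    rw [Complex.ofReal_exp]
    congr 2
    · push_cast
      ring
    · push_cast
      ring
  rw [integral_congr_ae (ae_of_all _ h1), h]
  have hsq : ((Real.pi : ℂ) / (a : ℂ)) ^ ((1 : ℂ) / 2) = ((√(Real.pi / a) : ℝ) : ℂ) := by
    rw [Real.sqrt_eq_rpow, Complex.ofReal_cpow (by positivity)]
    push_cast
    norm_num
  rw [hsq, Complex.ofReal_mul, Complex.ofReal_exp]
  congr 2
  push_cast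
  ring

theorem wpl_ch_norm (t : ℝ) (m : ℕ) : ‖ch t m‖ = 1 := by
  unfold ch
  rw [Complex.norm_exp_ofReal_mul_I]

/-- module WPL -/
theorem hWPL : StWpl := by
  intro g M T W u₀ hW hT
  have hW0 : 0 < W := by linarith
  have hT0 : 0 < T := by linarith
  have hpi := Real.pi_pos
  set D : ℝ → ℂ := fun s => ∑ m ∈ Icc 1 M, ((g m : ℝ) : ℂ) / m * ch s m with hD
  have hDc : Continuous D := by
    rw [hD]
    unfold ch
    fun_prop
  set B : ℝ := ∑ m ∈ Icc 1 M, ‖((g m : ℝ) : ℂ) / m‖ with hB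
  have hDb : ∀ s, ‖D s‖ ≤ B := by
    intro s
    refine (norm_sum_le _ _).trans (Finset.sum_le_sum fun m _ => ?_)
    rw [norm_mul, wpl_ch_norm, mul_one]
  set k : ℝ → ℝ := fun s => Real.exp (-(s / T) ^ 2 / 2) with hk
  have hkc : Continuous k := by
    rw [hk]
    fun_prop
  have hk0 : ∀ s, 0 < k s := fun s => Real.exp_pos _
  have hk1 : ∀ s, k s = Real.exp (-((2 * T ^ 2)⁻¹ * s ^ 2)) := by
    intro s
    simp only [hk]
    congr 1
    field_simp
  have hki : Integrable k := by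
    have h := integrable_exp_neg_mul_sq (b := (2 * T ^ 2)⁻¹) (by positivity)
    refine h.congr (ae_of_all _ fun s => ?_)
    rw [hk1]
    simp only [neg_mul]
  set H : ℝ → ℂ := fun s => (k s : ℂ) * D s with hH
  have hHc : Continuous H := (Complex.continuous_ofReal.comp hkc).mul hDc
  have hHn : ∀ s, ‖H s‖ = k s * ‖D s‖ := by
    intro s
    simp only [hH]
    rw [norm_mul, Complex.norm_real, Real.norm_of_nonneg (hk0 s).le]
  have hHi : Integrable H := by
    refine (hki.mul_const B).mono' hHc.aestronglyMeasurable (ae_of_all _ fun s => ?_)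
    rw [hHn]
    exact mul_le_mul_of_nonneg_left (hDb s) (hk0 s).le
  set E : ℝ → ℝ := fun y => Real.exp (-((W ^ 2)⁻¹ * y ^ 2)) with hE
  have hEc : Continuous E := by
    rw [hE]
    fun_prop
  have hE0 : ∀ y, 0 < E y := fun y => Real.exp_pos _
  have hE1 : ∀ y, E y ≤ 1 := fun y => Real.exp_le_one_iff.2 (by
    have : 0 ≤ (W ^ 2)⁻¹ * y ^ 2 := by positivity
    linarith)
  have hE2 : ∀ s c, Real.exp (-((s - c) / W) ^ 2) = E (c - s) := by
    intro s c
    simp only [hE]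
    congr 1
    field_simp
    ring
  have hEi : Integrable E := by
    have h := integrable_exp_neg_mul_sq (b := (W ^ 2)⁻¹) (by positivity)
    refine h.congr (ae_of_all _ fun s => ?_)
    simp only [hE, neg_mul]
  set f : ℝ → ℝ → ℂ := fun u s => Complex.exp (((s * u : ℝ) : ℂ) * Complex.I) * H s with hf
  set gg : ℝ → ℝ → ℂ := fun u y => Complex.exp (((y * (u - u₀) : ℝ) : ℂ) * Complex.I) * (E y : ℂ)
    with hgg
  have hfi : ∀ u, Integrable (f u) := by
    intro u
    refine hHi.norm.mono' (by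
      have : Continuous (f u) := by
        simp only [hf]
        fun_prop
      exact this.aestronglyMeasurable) (ae_of_all _ fun s => ?_)
    simp only [hf]
    rw [norm_mul, Complex.norm_exp_ofReal_mul_I, one_mul]
  have hgi : ∀ u, Integrable (gg u) := by
    intro u
    refine hEi.mono' (by
      have : Continuous (gg u) := by
        simp only [hgg]
        fun_prop
      exact this.aestronglyMeasurable) (ae_of_all _ fun s => ?_)
    simp only [hgg]
    rw [norm_mul, Complex.norm_exp_ofReal_mul_I, one_mul, Complex.norm_real,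
      Real.norm_of_nonneg (hE0 s).le]
  set Φ : ℝ → ℂ := fun c => ∫ s, f 0 s * gg 0 (c - s) with hΦ
  have hconv : ∀ u c, ∫ s, f u s * gg u (c - s) =
      Complex.exp (((c * u : ℝ) : ℂ) * Complex.I) * Φ c := by
    intro u c
    rw [hΦ, ← integral_const_mul]
    apply integral_congr_ae (ae_of_all _ fun s => ?_)
    simp only [hf, hgg]
    have e1 : Complex.exp (((s * u : ℝ) : ℂ) * Complex.I) *
        Complex.exp ((((c - s) * (u - u₀) : ℝ) : ℂ) * Complex.I) =
        Complex.exp (((c * u : ℝ) : ℂ) * Complex.I) *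
        (Complex.exp (((s * 0 : ℝ) : ℂ) * Complex.I) *
        Complex.exp ((((c - s) * (0 - u₀) : ℝ) : ℂ) * Complex.I)) := by
      rw [← Complex.exp_add, ← Complex.exp_add, ← Complex.exp_add]
      congr 1
      push_cast
      ring
    calc _ = (Complex.exp (((s * u : ℝ) : ℂ) * Complex.I) *
        Complex.exp ((((c - s) * (u - u₀) : ℝ) : ℂ) * Complex.I)) * (H s * E (c - s)) := by ring
      _ = _ := by
        rw [e1]
        ring
  have hΦi : Integrable Φ :=
    (hfi 0).integrable_convolution (ContinuousLinearMap.mul ℂ ℂ) (hgi 0)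
  set N : ℝ → ℝ := fun c => ∫ s, ‖H s‖ * E (c - s) with hN
  have hNi : Integrable N :=
    hHi.norm.integrable_convolution (ContinuousLinearMap.mul ℝ ℝ) hEi
  have hN0 : ∀ c, 0 ≤ N c := fun c =>
    integral_nonneg fun s => mul_nonneg (norm_nonneg _) (hE0 _).le
  have hNb : ∀ c, N c ≤ ∫ s, ‖H s‖ := by
    intro c
    apply integral_mono_of_nonneg (ae_of_all _ fun s => mul_nonneg (norm_nonneg _) (hE0 _).le)
      hHi.norm (ae_of_all _ fun s => ?_)
    exact mul_le_of_le_one_right (norm_nonneg _) (hE1 _)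
  have hΦN : ∀ c, ‖Φ c‖ ≤ N c := by
    intro c
    refine (norm_integral_le_integral_norm _).trans (le_of_eq ?_)
    apply integral_congr_ae (ae_of_all _ fun s => ?_)
    have n1 : ‖f 0 s‖ = ‖H s‖ := by
      simp only [hf]
      rw [norm_mul, Complex.norm_exp_ofReal_mul_I, one_mul]
    have n2 : ‖gg 0 (c - s)‖ = E (c - s) := by
      simp only [hgg]
      rw [norm_mul, Complex.norm_exp_ofReal_mul_I, one_mul, Complex.norm_real,
        Real.norm_of_nonneg (hE0 _).le]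
    change ‖f 0 s * gg 0 (c - s)‖ = ‖H s‖ * E (c - s)
    rw [norm_mul, n1, n2]
  have hN2 : Integrable (fun c => N c ^ 2) := by
    refine (hNi.mul_const (∫ s, ‖H s‖)).mono' (hNi.1.pow 2) (ae_of_all _ fun c => ?_)
    rw [Real.norm_of_nonneg (by positivity), pow_two]
    exact mul_le_mul_of_nonneg_left (hNb c) (hN0 c)
  have hΦ2 : MemLp Φ 2 := by
    rw [memLp_two_iff_integrable_sq_norm hΦi.1]
    refine hN2.mono' (hΦi.1.norm.pow 2) (ae_of_all _ fun c => ?_)
    rw [Real.norm_of_nonneg (by positivity)]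
    exact pow_le_pow_left₀ (norm_nonneg _) (hΦN c) 2
  have hfint : ∀ u, ∫ s, f u s = ((√(2 * Real.pi) : ℝ) : ℂ) *
      ∑ m ∈ Icc 1 M, ((g m : ℝ) : ℂ) / m *
      ((T * Real.exp (-(T ^ 2 * (u - Real.log m) ^ 2 / 2)) : ℝ) : ℂ) := by
    intro u
    have e1 : ∀ s, f u s = ∑ m ∈ Icc 1 M, ((g m : ℝ) : ℂ) / m *
        (Complex.exp (((s * (u - Real.log m) : ℝ) : ℂ) * Complex.I) *
          ((Real.exp (-((2 * T ^ 2)⁻¹ * s ^ 2)) : ℝ) : ℂ)) := by
      intro s
      simp only [hf, hH, hD]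
      rw [Finset.mul_sum, Finset.mul_sum]
      apply Finset.sum_congr rfl
      intro m _
      rw [← hk1]
      unfold ch
      have e2 : Complex.exp (((s * (u - Real.log m) : ℝ) : ℂ) * Complex.I) =
          Complex.exp (((s * u : ℝ) : ℂ) * Complex.I) *
          Complex.exp (((-(s * Real.log m) : ℝ) : ℂ) * Complex.I) := by
        rw [← Complex.exp_add]
        congr 1
        push_cast
        ring
      rw [e2]
      ring
    rw [integral_congr_ae (ae_of_all _ e1), integral_finsetSum, Finset.mul_sum]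
    · apply Finset.sum_congr rfl
      intro m _
      rw [integral_const_mul, wpl_gauss _ (by positivity)]
      have e3 : √(Real.pi / (2 * T ^ 2)⁻¹) = √(2 * Real.pi) * T := by
        rw [div_inv_eq_mul, show Real.pi * (2 * T ^ 2) = (2 * Real.pi) * T ^ 2 by ring,
          Real.sqrt_mul (by positivity), Real.sqrt_sq hT0.le]
      have e4 : -((u - Real.log m) ^ 2 / (4 * (2 * T ^ 2)⁻¹)) =
          -(T ^ 2 * (u - Real.log m) ^ 2 / 2) := by
        field_simp
        ring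
      rw [e3, e4]
      push_cast
      ring
    · intro m _
      apply Integrable.const_mul
      have h1 : Integrable (fun s : ℝ => Real.exp (-((2 * T ^ 2)⁻¹ * s ^ 2))) := by
        refine hki.congr (ae_of_all _ fun s => hk1 s)
      refine h1.mono' (by
        have : Continuous (fun s : ℝ => Complex.exp (((s * (u - Real.log m) : ℝ) : ℂ) *
          Complex.I) * ((Real.exp (-((2 * T ^ 2)⁻¹ * s ^ 2)) : ℝ) : ℂ)) := by
          fun_prop
        exact this.aestronglyMeasurable) (ae_of_all _ fun s => ?_)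
      rw [norm_mul, Complex.norm_exp_ofReal_mul_I, one_mul, Complex.norm_real,
        Real.norm_of_nonneg (Real.exp_pos _).le]
  have hgint : ∀ u, ∫ y, gg u y = ((√Real.pi * W * Real.exp (-(W ^ 2 * (u - u₀) ^ 2 / 4)) : ℝ) : ℂ) := by
    intro u
    simp only [hgg, hE]
    rw [wpl_gauss _ (by positivity)]
    have e3 : √(Real.pi / (W ^ 2)⁻¹) = √Real.pi * W := by
      rw [div_inv_eq_mul, Real.sqrt_mul (by positivity), Real.sqrt_sq hW0.le]
    have e4 : -((u - u₀) ^ 2 / (4 * (W ^ 2)⁻¹)) = -(W ^ 2 * (u - u₀) ^ 2 / 4) := by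
      field_simp
    rw [e3, e4]
  have hFub : ∀ u, ∫ c, Complex.exp (((c * u : ℝ) : ℂ) * Complex.I) * Φ c =
      (∫ s, f u s) * ∫ y, gg u y := by
    intro u
    have h := integral_convolution (ContinuousLinearMap.mul ℂ ℂ) (hfi u) (hgi u)
      (μ := (volume : Measure ℝ)) (ν := (volume : Measure ℝ))
    have h2 : ∀ c, (convolution (f u) (gg u) (ContinuousLinearMap.mul ℂ ℂ) volume) c =
        Complex.exp (((c * u : ℝ) : ℂ) * Complex.I) * Φ c := fun c => hconv u c
    rw [integral_congr_ae (ae_of_all _ h2)] at h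
    exact h
  obtain ⟨-, -, hpl⟩ := wpl_scaled hΦi hΦ2
  have hkey : ∀ u : ℝ, Real.exp (-(W ^ 2 * (u - u₀) ^ 2 / 2)) * ‖∑ m ∈ Icc 1 M, ((g m : ℝ) : ℂ) / m *
      ((T * Real.exp (-(T ^ 2 * (u - Real.log m) ^ 2 / 2)) : ℝ) : ℂ)‖ ^ 2 =
      (Real.pi * W ^ 2)⁻¹ * ‖((√(2 * Real.pi))⁻¹ : ℂ) * ∫ t, Complex.exp (((t * u : ℝ) : ℂ) *
      Complex.I) * Φ t‖ ^ 2 := by
    intro u
    rw [hFub, hfint, hgint]
    have hs : (0 : ℝ) < √(2 * Real.pi) := Real.sqrt_pos.2 (by positivity)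
    rw [norm_mul, norm_mul, norm_mul, norm_inv, Complex.norm_real, Complex.norm_real,
      Real.norm_of_nonneg hs.le, Real.norm_of_nonneg (by positivity), mul_pow, mul_pow, mul_pow,
      mul_pow, mul_pow, Real.sq_sqrt hpi.le, Real.sq_sqrt (by positivity), inv_pow,
      Real.sq_sqrt (by positivity)]
    have e5 : Real.exp (-(W ^ 2 * (u - u₀) ^ 2 / 2)) =
        Real.exp (-(W ^ 2 * (u - u₀) ^ 2 / 4)) ^ 2 := by
      rw [← Real.exp_nat_mul]
      congr 1
      push_cast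
      ring
    rw [e5]
    field_simp
  rw [integral_congr_ae (ae_of_all _ hkey), integral_const_mul, hpl]
  have hNQ : NQ W (fun s => Real.exp (-(s / T) ^ 2 / 2) *
      ‖∑ m ∈ Icc 1 M, ((g m : ℝ) : ℂ) / m * ch s m‖) = 1 / W * ∫ c, N c ^ 2 := by
    unfold NQ
    congr 1
    apply integral_congr_ae (ae_of_all _ fun c => ?_)
    change (∫ s : ℝ, (Real.exp (-(s / T) ^ 2 / 2) *
      ‖∑ m ∈ Icc 1 M, ((g m : ℝ) : ℂ) / m * ch s m‖) * Real.exp (-((s - c) / W) ^ 2)) ^ 2 =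
      (∫ s, ‖H s‖ * E (c - s)) ^ 2
    congr 1
    apply integral_congr_ae (ae_of_all _ fun s => ?_)
    change (k s * ‖D s‖) * Real.exp (-((s - c) / W) ^ 2) = ‖H s‖ * E (c - s)
    rw [hHn, hE2]
  rw [hNQ]
  have h1 : ∫ c, ‖Φ c‖ ^ 2 ≤ ∫ c, N c ^ 2 := by
    apply integral_mono_of_nonneg (ae_of_all _ fun c => by positivity) hN2
      (ae_of_all _ fun c => ?_)
    exact pow_le_pow_left₀ (norm_nonneg _) (hΦN c) 2
  have h2 : 0 ≤ ∫ c, N c ^ 2 := integral_nonneg fun c => by positivity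
  have h3 : (Real.pi * W ^ 2)⁻¹ ≤ 1 / W * (1 / W) := by
    rw [mul_inv, ← one_div (W ^ 2), one_div_mul_one_div, ← pow_two]
    have h4 : Real.pi⁻¹ ≤ 1 := inv_le_one_of_one_le₀ (by linarith [Real.pi_gt_three])
    exact mul_le_of_le_one_left (by positivity) h4
  calc (Real.pi * W ^ 2)⁻¹ * ∫ c, ‖Φ c‖ ^ 2 ≤ (1 / W * (1 / W)) * ∫ c, N c ^ 2 :=
        mul_le_mul h3 h1 (integral_nonneg fun c => by positivity) (by positivity)
    _ = 1 / W * (1 / W * ∫ c, N c ^ 2) := by ring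

end Pool.Agent.Helper70.GW
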